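import Mathlib

/-!
# Numerical lemmas for the rows argument (MP_85ff8f_ag, notes 1684, 1709, 1735)

`d` the degree, `D = d - 1`, `s` letters of degree `d`, `i` letters of degree `d - 1`, `p` the homological
degree, `t = 2 p - s - (s + i)` the degree in `c`.  Rows `e = 0, .., R - 1` with `α e` letters of degree
`d` and `β e` letters of degree `d - 1`.  `numbers`: the inequalities
`G + (r_e + 1) e ≤ out_e + (r_e + 1) t`, `r_e = α e + β e`, `G = s d + i (d-1) + 2 d + k`,
`out_e = ∑_{j<e} (α j d + β j (d-1) + 1)`, cannot hold for all `e < R` if `R ≥ d + k + 1`.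
-/

set_option autoImplicit false

open Finset

namespace Pool.Agent.H85.OPN

/-- arithmetic core -/
theorem core {D k x B : ℤ} (hD : 1 ≤ D) (hk : 0 ≤ k) (hx0 : 0 ≤ x) (hx : 2 * x ≤ 4 * D - 4 + k)
    (hB : 0 ≤ B)
    (h2 : D * D + (x + k + 4) * D + k + 2 ≤ 2 * (5 * D + k - 4 - x) + (2 * D - 1) * x - (D - 1) * B)
    (h3 : D * D + (x + k + 4) * D + k + 2 ≤ 3 * (5 * D + k - 4 - x) + (3 * D - 2) * B)
    (h4 : B = 0 → D * D + (x + k + 4) * D + 2 * k + 4 ≤ 3 * (5 * D + k - 4 - x)) : False := by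
  rcases le_or_gt 6 D with h6 | h6
  · obtain ⟨z, hz⟩ : ∃ z, z = 4 * D - 4 + k - 2 * x := ⟨_, rfl⟩
    obtain ⟨u, hu⟩ : ∃ u, u = D - 1 - B := ⟨_, rfl⟩
    have hz0 : 0 ≤ z := by linarith
    have hBu : B = D - 1 - u := by linarith
    subst hBu
    have hxz : 2 * x = 4 * D - 4 + k - z := by linarith
    have P2 : 10 + (D + 1) * k + (D - 3) * z ≤ 2 * (D - 1) * u := by
      have e1 : D * (2 * x) = D * (4 * D - 4 + k - z) := by rw [hxz]
      nlinarith [h2, e1, hxz]
    have P3 : 2 * (3 * D - 2) * u ≤ 4 * D - 12 - (3 * D - 1) * k + (D + 3) * z := by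
      have e1 : D * (2 * x) = D * (4 * D - 4 + k - z) := by rw [hxz]
      nlinarith [h3, e1, hxz]
    have hDk : 0 ≤ (D + 1) * k := mul_nonneg (by linarith) hk
    have hDz : 0 ≤ (D - 3) * z := mul_nonneg (by linarith) hz0
    have hu1 : 1 ≤ u := by
      by_contra hcon
      have hu0 : u ≤ 0 := by omega
      have : (D - 1) * u ≤ 0 := mul_nonpos_of_nonneg_of_nonpos (by linarith) hu0
      nlinarith
    have P4 : 42 + 2 * u + (6 * D + 2) * k + (2 * D - 12) * z ≤ 4 * D := by
      nlinarith [P2, P3]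
    have hz12 : 0 ≤ (2 * D - 12) * z := mul_nonneg (by linarith) hz0
    have hk0 : k = 0 := by
      by_contra hcon
      have hk1 : 1 ≤ k := by omega
      have : (6 * D + 2) * 1 ≤ (6 * D + 2) * k := mul_le_mul_of_nonneg_left hk1 (by linarith)
      linarith
    subst hk0
    have hz2 : z = 0 := by
      by_contra hcon
      have hz2 : 2 ≤ z := by omega
      have : (2 * D - 12) * 2 ≤ (2 * D - 12) * z := mul_le_mul_of_nonneg_left hz2 (by linarith)
      linarith
    subst hz2
    have : 2 * (3 * D - 2) * 1 ≤ 2 * (3 * D - 2) * u := mul_le_mul_of_nonneg_left hu1 (by linarith)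
    linarith
  · interval_cases D <;> omega

/-- all rows have length at least two -/
theorem core2 {D k x B : ℤ} (hD : 1 ≤ D) (hk : 0 ≤ k) (hx : 2 * x ≤ 4 * D - 4 + k)
    (hx0 : 0 ≤ x) (hB : B ≤ x - D - k - 2)
    (h3 : D * D + (x + k + 4) * D + k + 2 ≤ 3 * (5 * D + k - 4 - x) + (3 * D - 2) * B) : False := by
  have h1 : (3 * D - 2) * B ≤ (3 * D - 2) * (x - D - k - 2) :=
    mul_le_mul_of_nonneg_left hB (by linarith)
  have h5 : 4 * D * D + 4 * k * D - 7 * D - 4 * k + 10 ≤ (2 * D - 5) * x := by nlinarith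
  rcases le_or_gt 3 D with h6 | h6
  · have h7 : (2 * D - 5) * (2 * x) ≤ (2 * D - 5) * (4 * D - 4 + k) :=
      mul_le_mul_of_nonneg_left hx (by linarith)
    nlinarith [mul_nonneg (by linarith : (0 : ℤ) ≤ D - 3) hk]
  · interval_cases D <;> omega

/-- a non-increasing sequence: the rows which are longer than `c` come first -/
theorem first_short {R : ℕ} {r : ℕ → ℕ} (hanti : ∀ j, j + 1 < R → r (j + 1) ≤ r j) (c : ℕ) :
    ∃ n ≤ R, (∀ j < n, c < r j) ∧ ∀ j, n ≤ j → j < R → r j ≤ c := by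
  classical
  have hex : ∃ n, R ≤ n ∨ r n ≤ c := ⟨R, Or.inl le_rfl⟩
  refine ⟨Nat.find hex, Nat.find_min' hex (Or.inl le_rfl), fun j hj => ?_, ?_⟩
  · have := Nat.find_min hex hj
    push Not at this
    exact this.2
  · intro j hj
    induction j, hj using Nat.le_induction with
    | base =>
      intro h
      rcases Nat.find_spec hex with h' | h'
      · omega
      · exact h'
    | succ j hj ih =>
      intro h
      exact (hanti j h).trans (ih (by omega))

theorem sum_ge_mul {n c : ℕ} {r : ℕ → ℕ} (h : ∀ j < n, c ≤ r j) :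
    ∑ j ∈ range n, r j = ∑ j ∈ range n, (r j - c) + n * c := by
  have h1 : ∑ j ∈ range n, r j = ∑ j ∈ range n, ((r j - c) + c) := by
    refine sum_congr rfl fun j hj => ?_
    have := h j (mem_range.1 hj)
    omega
  rw [h1, sum_add_distrib, sum_const, card_range, smul_eq_mul]

/-- the degree of the first `e` rows -/
theorem out_le {D s e : ℕ} {α β : ℕ → ℕ} (h : ∑ j ∈ range e, α j ≤ s) :
    ∑ j ∈ range e, (α j * (D + 1) + β j * D + 1) ≤ D * ∑ j ∈ range e, (α j + β j) + s + e := by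
  have h1 : ∑ j ∈ range e, (α j * (D + 1) + β j * D + 1)
      = D * ∑ j ∈ range e, (α j + β j) + ∑ j ∈ range e, α j + e := by
    rw [mul_sum]
    have : ∑ j ∈ range e, (α j * (D + 1) + β j * D + 1)
        = ∑ j ∈ range e, (D * (α j + β j) + α j + 1) := sum_congr rfl fun j _ => by ring
    rw [this, sum_add_distrib, sum_add_distrib, sum_const, card_range, smul_eq_mul, mul_one]
  omega

/-- replacing the length of the row by a bound -/
theorem key_le {D k s i t e c : ℕ} {α β : ℕ → ℕ} (hα : ∑ j ∈ range e, α j ≤ s)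
    (hβ : ∑ j ∈ range e, β j ≤ i) (hc : α e + β e ≤ c) (hek : e ≤ 2 * (D + 1) + k)
    (h1 : s * (D + 1) + i * D + 2 * (D + 1) + k + (α e + β e + 1) * e
        ≤ ∑ j ∈ range e, (α j * (D + 1) + β j * D + 1) + (α e + β e + 1) * t) :
    s * (D + 1) + i * D + 2 * (D + 1) + k + (c + 1) * e
        ≤ ∑ j ∈ range e, (α j * (D + 1) + β j * D + 1) + (c + 1) * t := by
  have h2 : ∑ j ∈ range e, (α j * (D + 1) + β j * D + 1)
      ≤ s * (D + 1) + i * D + e := by
    rw [sum_add_distrib, sum_const, card_range, smul_eq_mul, mul_one, sum_add_distrib,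
      ← sum_mul, ← sum_mul]
    have h5 := Nat.mul_le_mul_right (D + 1) hα
    have h6 := Nat.mul_le_mul_right D hβ
    omega
  have h3 : e ≤ t := by
    have h4 : (α e + β e + 1) * e ≤ (α e + β e + 1) * t := by omega
    exact Nat.le_of_mul_le_mul_left h4 (Nat.succ_pos _)
  obtain ⟨q, hq⟩ : ∃ q, c = α e + β e + q := Nat.exists_eq_add_of_le hc
  have h4 : q * e ≤ q * t := Nat.mul_le_mul_left q h3
  rw [hq]
  have h5 : (α e + β e + q + 1) * e = (α e + β e + 1) * e + q * e := by ring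
  have h6 : (α e + β e + q + 1) * t = (α e + β e + 1) * t + q * t := by ring
  omega

/-- rows `0, .., E` (the last one of length at most one, or absent if `E = R`), the inequalities
`(C_e)` for `e < R` and for `e = E` if `E < R` -/
theorem numbers_gen {d k s i p t R : ℕ} {α β : ℕ → ℕ} (hd : 2 ≤ d) (hs : k + 2 ≤ s)
    (hp : 2 * p + 6 ≤ 6 * d + 3 * k) (hsp : s + i ≤ p) (ht : t + s + (s + i) ≤ 2 * p)
    (hα : ∑ j ∈ range R, α j ≤ s) (hβ : ∑ j ∈ range R, β j ≤ i)
    (hx : ∑ j ∈ range R, (α j + β j) + d + k + 1 ≤ s + i + R)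
    (hlast : 1 ≤ R ∧ α (R - 1) + β (R - 1) ≤ 1 ∨ d + k + 1 ≤ R)
    (hpos : ∀ j < R, 1 ≤ α j + β j)
    (hanti : ∀ j, j + 1 < R → α (j + 1) + β (j + 1) ≤ α j + β j)
    (hC : ∀ e < R, s * d + i * (d - 1) + 2 * d + k + (α e + β e + 1) * e
      ≤ ∑ j ∈ range e, (α j * d + β j * (d - 1) + 1) + (α e + β e + 1) * t) : False := by
  obtain ⟨D, rfl⟩ : ∃ D, d = D + 1 := ⟨d - 1, by omega⟩
  simp only [Nat.add_sub_cancel] at hC
  have hαe : ∀ e ≤ R, ∑ j ∈ range e, α j ≤ s := fun e he =>
    (sum_le_sum_of_subset (range_subset_range.2 he)).trans hα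
  have hβe : ∀ e ≤ R, ∑ j ∈ range e, β j ≤ i := fun e he =>
    (sum_le_sum_of_subset (range_subset_range.2 he)).trans hβ
  set r : ℕ → ℕ := fun j => α j + β j with hr
  have hσ : ∑ j ∈ range R, r j ≤ s + i := by
    rw [hr, sum_add_distrib]
    omega
  have hanti' : ∀ j, j + 1 < R → r (j + 1) ≤ r j := hanti
  obtain ⟨b, hbR, hb1, hb2⟩ := first_short hanti' 2
  obtain ⟨a, haR, ha1, ha2⟩ := first_short hanti' 1
  obtain ⟨B, hB⟩ : ∃ B, B = ∑ j ∈ range R, (r j - 2) := ⟨_, rfl⟩
  have hBb : ∑ j ∈ range b, (r j - 2) = B := by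
    rw [hB, ← sum_range_add_sum_Ico (fun j => r j - 2) hbR]
    have : ∑ j ∈ Ico b R, (r j - 2) = 0 := by
      refine sum_eq_zero fun j hj => ?_
      have := hb2 j (mem_Ico.1 hj).1 (mem_Ico.1 hj).2
      omega
    omega
  have hBa : ∑ j ∈ range a, (r j - 2) = B := by
    rw [hB, ← sum_range_add_sum_Ico (fun j => r j - 2) haR]
    have : ∑ j ∈ Ico a R, (r j - 2) = 0 := by
      refine sum_eq_zero fun j hj => ?_
      have := ha2 j (mem_Ico.1 hj).1 (mem_Ico.1 hj).2
      omega
    omega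
  have hLb : ∑ j ∈ range b, r j = B + b * 2 := by
    rw [sum_ge_mul (c := 2) fun j hj => by have := hb1 j hj; omega, hBb]
  have hLa : ∑ j ∈ range a, r j = B + a * 2 := by
    rw [sum_ge_mul (c := 2) fun j hj => by have := ha1 j hj; omega, hBa]
  have hbB : b ≤ B := by
    rw [← hBb]
    calc b = ∑ j ∈ range b, 1 := by simp
      _ ≤ _ := sum_le_sum fun j hj => by have := hb1 j (mem_range.1 hj); omega
  -- the number of rows
  have hRa : B + a * 2 + (R - a) = ∑ j ∈ range R, r j := by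
    rw [← sum_range_add_sum_Ico r haR, hLa]
    have : ∑ j ∈ Ico a R, r j = ∑ j ∈ Ico a R, 1 := by
      refine sum_congr rfl fun j hj => ?_
      have h1 := ha2 j (mem_Ico.1 hj).1 (mem_Ico.1 hj).2
      have h2 := hpos j (mem_Ico.1 hj).2
      simp only [hr] at h1 ⊢
      omega
    rw [this, sum_const, Nat.card_Ico, smul_eq_mul, mul_one]
  have hbσ : B + b * 2 ≤ ∑ j ∈ range R, r j := by
    rw [← hLb]
    exact sum_le_sum_of_subset (range_subset_range.2 hbR)
  have hba : b ≤ a := by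
    by_contra hcon
    push Not at hcon
    have h1 := hb1 a hcon
    have h2 := ha2 a le_rfl (by omega)
    omega
  have haR1 : a < R ∨ (a = R ∧ D + 1 + k + 1 ≤ R) := by
    rcases hlast with ⟨h1, h2⟩ | h1
    · left
      by_contra hcon
      have h3 := ha1 (R - 1) (by omega)
      simp only [hr] at h3
      omega
    · rcases lt_or_eq_of_le haR with h2 | h2
      · exact Or.inl h2
      · exact Or.inr ⟨h2, h1⟩
  have hbR' : b < R := by
    rcases haR1 with h | ⟨h, h'⟩ <;> omega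
  have hσx : ∑ j ∈ range R, r j ≤ s + i := hσ
  have hx' : ∑ j ∈ range R, r j + (D + 1) + k + 1 ≤ s + i + R := hx
  -- the conditions at `e = b` and `e = a`
  have kb := key_le (hαe b hbR) (hβe b hbR) (hb2 b le_rfl hbR') (by omega) (hC b hbR')
  have kb' := out_le (D := D) (β := β) (hαe b hbR)
  have hLb' : ∑ j ∈ range b, (α j + β j) = B + b * 2 := hLb
  rw [hLb'] at kb'
  -- integers
  have hxx : ∃ x : ℕ, s + i = x + D + k + 2 := ⟨s + i - (D + k + 2), by omega⟩
  obtain ⟨x, hxx⟩ := hxx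
  have hD1 : (1 : ℤ) ≤ (D : ℤ) := by exact_mod_cast (by omega : 1 ≤ D)
  have hk0 : (0 : ℤ) ≤ (k : ℤ) := Int.natCast_nonneg k
  have hx0 : (0 : ℤ) ≤ (x : ℤ) := Int.natCast_nonneg x
  have hB0 : (0 : ℤ) ≤ (B : ℤ) := Int.natCast_nonneg B
  have hx1 : 2 * (x : ℤ) ≤ 4 * (D : ℤ) - 4 + k := by omega
  have hi : (i : ℤ) = x + D + k + 2 - s := by omega
  have ht' : (t : ℤ) ≤ 5 * D + k - 4 - x := by omega
  have hb0 : (b : ℤ) ≤ B := by exact_mod_cast hbB
  have kb2 : ((s * (D + 1) + i * D + 2 * (D + 1) + k + (2 + 1) * b : ℕ) : ℤ)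
      ≤ ((D * (B + b * 2) + s + b + (2 + 1) * t : ℕ) : ℤ) := by
    exact_mod_cast (by omega : s * (D + 1) + i * D + 2 * (D + 1) + k + (2 + 1) * b
      ≤ D * (B + b * 2) + s + b + (2 + 1) * t)
  have h3 : (D : ℤ) * D + (x + k + 4) * D + k + 2 ≤ 3 * (5 * D + k - 4 - x) + (3 * D - 2) * B := by
    push_cast at kb2
    rw [hi] at kb2
    have hm := mul_le_mul_of_nonneg_left hb0 (by linarith : (0 : ℤ) ≤ 2 * D - 2)
    linarith
  rcases haR1 with haR' | ⟨haR', hR'⟩
  · have ka := key_le (hαe a haR) (hβe a haR) (ha2 a le_rfl haR') (by omega) (hC a haR')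
    have ka' := out_le (D := D) (β := β) (hαe a haR)
    have hLa' : ∑ j ∈ range a, (α j + β j) = B + a * 2 := hLa
    rw [hLa'] at ka'
    have ka2 : ((s * (D + 1) + i * D + 2 * (D + 1) + k + (1 + 1) * a : ℕ) : ℤ)
        ≤ ((D * (B + a * 2) + s + a + (1 + 1) * t : ℕ) : ℤ) := by
      exact_mod_cast (by omega : s * (D + 1) + i * D + 2 * (D + 1) + k + (1 + 1) * a
        ≤ D * (B + a * 2) + s + a + (1 + 1) * t)
    have hax : (a : ℤ) ≤ x - B := by omega
    have h2 : (D : ℤ) * D + (x + k + 4) * D + k + 2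
        ≤ 2 * (5 * D + k - 4 - x) + (2 * D - 1) * x - (D - 1) * B := by
      push_cast at ka2
      rw [hi] at ka2
      have hm := mul_le_mul_of_nonneg_left hax (by linarith : (0 : ℤ) ≤ 2 * D - 1)
      linarith
    refine core hD1 hk0 hx0 hx1 hB0 h2 h3 fun hB' => ?_
    have hb' : b = 0 := by
      have : B = 0 := by exact_mod_cast hB'
      omega
    subst hb'
    simp only [range_zero, sum_empty, zero_add, mul_zero, add_zero] at kb
    have kb3 : ((s * (D + 1) + i * D + 2 * (D + 1) + k : ℕ) : ℤ) ≤ (((2 + 1) * t : ℕ) : ℤ) := by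
      exact_mod_cast kb
    push_cast at kb3
    rw [hi] at kb3
    have hs' : (k : ℤ) + 2 ≤ s := by exact_mod_cast hs
    linarith
  · refine core2 hD1 hk0 hx1 hx0 ?_ h3
    omega

/-- **The numerical lemma.** All letters are in the `R` rows, `R ≥ d + k + 1`. -/
theorem numbers {d k s i p t R : ℕ} {α β : ℕ → ℕ} (hd : 2 ≤ d) (hs : k + 2 ≤ s)
    (hp : 2 * p + 6 ≤ 6 * d + 3 * k) (hsp : s + i ≤ p) (ht : t + s + (s + i) ≤ 2 * p)
    (hR : d + k + 1 ≤ R) (hα : ∑ j ∈ range R, α j = s) (hβ : ∑ j ∈ range R, β j = i)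
    (hpos : ∀ j < R, 1 ≤ α j + β j)
    (hanti : ∀ j, j + 1 < R → α (j + 1) + β (j + 1) ≤ α j + β j)
    (hC : ∀ e < R, s * d + i * (d - 1) + 2 * d + k + (α e + β e + 1) * e
      ≤ ∑ j ∈ range e, (α j * d + β j * (d - 1) + 1) + (α e + β e + 1) * t) : False := by
  refine numbers_gen hd hs hp hsp ht hα.le hβ.le ?_ (Or.inr hR) hpos hanti hC
  rw [sum_add_distrib]
  omega

/-- generation, `k ≥ d - 1`: only `s > 3 (d - 1 + k) / 2` occurs, and the first row is long enough -/
theorem gen_big {d k s i p t r : ℕ} (hd : 2 ≤ d) (hk : d ≤ k + 1)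
    (hs : 3 * (d - 1) + 3 * k + 1 ≤ 2 * s)
    (hp : 2 * p + 6 ≤ 6 * d + 3 * k) (hsp : s + i ≤ p) (ht : t + s + (s + i) ≤ 2 * p)
    (hC : s * d + i * (d - 1) + 2 * d + k ≤ (r + 1) * t) : s + i ≤ 2 * d + k + r := by
  obtain ⟨D, rfl⟩ : ∃ D, d = D + 1 := ⟨d - 1, by omega⟩
  simp only [Nat.add_sub_cancel] at hC hs
  by_contra hcon
  push Not at hcon
  obtain ⟨W, hW⟩ : ∃ W : ℤ, W = 2 * ((s : ℤ) + i) - 3 * D - 3 * k := ⟨_, rfl⟩
  have hD : (1 : ℤ) ≤ D := by omega
  have hk0 : (0 : ℤ) ≤ k := Int.natCast_nonneg k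
  have hW1 : 1 ≤ W := by omega
  have h1 : 2 * (t : ℤ) ≤ 6 * D - 1 - W := by omega
  have h2 : 2 * ((r : ℤ) + 1) ≤ W - D + k - 4 := by omega
  have h3 : (2 * ((r : ℤ) + 1)) * (2 * t) ≤ (W - D + k - 4) * (6 * D - 1 - W) :=
    mul_le_mul h2 h1 (by positivity) (by linarith [(by positivity : (0 : ℤ) ≤ 2 * ((r : ℤ) + 1))])
  have hC' : ((s * (D + 1) + i * D + 2 * (D + 1) + k : ℕ) : ℤ) ≤ (((r + 1) * t : ℕ) : ℤ) := by
    exact_mod_cast hC
  push_cast at hC'
  have hi : (i : ℤ) * 2 = W + 3 * D + 3 * k - 2 * s := by linarith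
  have hi2 : (i : ℤ) * 2 * D = (W + 3 * D + 3 * k - 2 * s) * D := by rw [hi]
  have hs0 : (0 : ℤ) ≤ s := Int.natCast_nonneg s
  have hkW : 0 ≤ (k : ℤ) * W := mul_nonneg hk0 (by linarith)
  nlinarith [sq_nonneg (2 * W - 5 * D - 3), hC', hi2, h3]

/-- generation, `k < d`, rows of length at least two -/
theorem gen_small {d k s i p t r e L : ℕ} (hd : 2 ≤ d) (hk : k + 1 ≤ d) (hs : k + 2 ≤ s)
    (hp : 2 * p + 6 ≤ 6 * d + 3 * k) (hsp : s + i ≤ p) (ht : t + s + (s + i) ≤ 2 * p)
    (hL : 2 * e ≤ L)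
    (hC : s * d + i * (d - 1) + 2 * d + k + (r + 1) * e ≤ (d - 1) * L + s + e + (r + 1) * t)
    (hG : 2 * d + k + r + L < s + i + e) : 2 * e + 4 ≤ k ∧ s + e ≤ d + k := by
  obtain ⟨D, rfl⟩ : ∃ D, d = D + 1 := ⟨d - 1, by omega⟩
  simp only [Nat.add_sub_cancel] at hC
  obtain ⟨v, hv⟩ : ∃ v : ℤ, v = (s : ℤ) + i - 2 * D - k - 2 - L + e := ⟨_, rfl⟩
  obtain ⟨δ, hδ⟩ : ∃ δ : ℤ, δ = (s : ℤ) - k - 2 := ⟨_, rfl⟩
  obtain ⟨T, hT⟩ : ∃ T : ℤ, T = (t : ℤ) - e := ⟨_, rfl⟩
  have hD : (1 : ℤ) ≤ D := by omega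
  have hk0 : (0 : ℤ) ≤ k := Int.natCast_nonneg k
  have he0 : (0 : ℤ) ≤ e := Int.natCast_nonneg e
  have hr0 : (0 : ℤ) ≤ r := Int.natCast_nonneg r
  have hkD : (k : ℤ) ≤ D := by omega
  have hδ0 : 0 ≤ δ := by omega
  have hvr : (r : ℤ) + 1 ≤ v := by omega
  have hE : 2 * v + 2 * e ≤ 2 * D + k - 4 := by omega
  have hTb : T ≤ 4 * D + k - 4 - v - 2 * e - δ := by omega
  have hC' : ((s * (D + 1) + i * D + 2 * (D + 1) + k + (r + 1) * e : ℕ) : ℤ)
      ≤ ((D * L + s + e + (r + 1) * t : ℕ) : ℤ) := by exact_mod_cast hC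
  push_cast at hC'
  have hi : (i : ℤ) = v + 2 * D + k + 2 + L - e - s := by linarith
  have ht' : (t : ℤ) = T + e := by linarith
  rw [hi, ht'] at hC'
  have hM1 : (v + 2 * D + k + 2 - e) * D + 2 * D + 2 + k - e ≤ (r + 1) * T := by linarith
  have hpos : 0 < (v + 2 * D + k + 2 - e) * D + 2 * D + 2 + k - e := by
    have h1 : 0 ≤ v + 2 * D + k + 2 - e := by linarith
    have h2 := mul_nonneg h1 (by linarith : (0 : ℤ) ≤ D)
    linarith
  have hT0 : 0 ≤ T := by
    by_contra hcon
    push Not at hcon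
    have := mul_nonpos_of_nonneg_of_nonpos (by linarith : (0 : ℤ) ≤ r + 1) hcon.le
    linarith
  have hM2 : (r + 1) * T ≤ v * (4 * D + k - 4 - v - 2 * e - δ) :=
    mul_le_mul hvr hTb hT0 (by linarith)
  have hM : (v + 2 * D + k + 2 - e) * D + 2 * D + 2 + k - e
      ≤ v * (4 * D + k - 4 - v - 2 * e - δ) := hM1.trans hM2
  have hvδ : 0 ≤ v * δ := mul_nonneg (by linarith) hδ0
  have hvD : D < v := by
    by_contra hcon
    push Not at hcon
    have h1 : 0 ≤ (D - v) * (2 * D + k - v) := mul_nonneg (by linarith) (by linarith)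
    rcases le_or_gt (D + 1 : ℤ) (2 * v) with h2 | h2
    · have h3 := mul_nonneg he0 (by linarith : (0 : ℤ) ≤ 2 * v - (D + 1))
      linarith
    · have h3 : (2 * (e : ℤ)) * (D + 1 - 2 * v) ≤ (2 * (2 * D + k - v)) * (D - v) :=
        mul_le_mul (by linarith) (by linarith) (by linarith) (by linarith)
      linarith
  have he1 : 2 * (e : ℤ) + 4 ≤ k := by linarith
  refine ⟨by omega, ?_⟩
  by_contra hcon
  push Not at hcon
  have hδ1 : (D : ℤ) - e ≤ δ := by omega
  have h1 : v * (D - e) ≤ v * δ := mul_le_mul_of_nonneg_left hδ1 (by linarith)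
  obtain ⟨w, hw⟩ : ∃ w : ℤ, w = v - D := ⟨_, rfl⟩
  have hvw : v = D + w := by linarith
  subst hvw
  have hw1 : 1 ≤ w := by linarith
  have hwk : 2 * w ≤ k - 4 := by linarith
  have h2 := mul_nonneg he0 (by linarith : (0 : ℤ) ≤ w - 1)
  have h3 : w * k ≤ D * D := mul_le_mul (by linarith) hkD hk0 (by linarith)
  have h4 : 0 ≤ w * w := mul_self_nonneg w
  linarith

/-- the inequality `(C_e)` of the node `e` of the tree: the rows `j < e` are given by `α`, `β`, the
current row has length `r` -/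
def Alive (d k s i t : ℕ) (α β : ℕ → ℕ) (e r : ℕ) : Prop :=
  s * d + i * (d - 1) + 2 * d + k + (r + 1) * e
    ≤ ∑ j ∈ range e, (α j * d + β j * (d - 1) + 1) + (r + 1) * t

/-- a node which is alive satisfies one of the two generation criteria: with `N_e = s + i - L`
letters, coefficient degree `m_e = 2 d + k - e`, either `N_e - r ≤ m_e`, or `s ≤ m_e - d`
(and `2 e ≤ L`, so `N_e` is small, too) -/
theorem gen_node {d k s i p t r e : ℕ} {α β : ℕ → ℕ} (hd : 2 ≤ d) (hs : k + 2 ≤ s)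
    (hs' : d ≤ k + 1 → 3 * (d - 1) + 3 * k + 1 ≤ 2 * s)
    (hp : 2 * p + 6 ≤ 6 * d + 3 * k) (hsp : s + i ≤ p) (ht : t + s + (s + i) ≤ 2 * p)
    (hr : 1 ≤ r) (hα : ∑ j ∈ range e, α j ≤ s) (hβ : ∑ j ∈ range e, β j ≤ i)
    (hanti : ∀ j, j + 1 < e → α (j + 1) + β (j + 1) ≤ α j + β j)
    (hlast : ∀ j < e, r ≤ α j + β j) (hN : ∑ j ∈ range e, (α j + β j) + r ≤ s + i)
    (hC : ∀ j < e, Alive d k s i t α β j (α j + β j)) (hCe : Alive d k s i t α β e r) :
    s + i + e ≤ 2 * d + k + r + ∑ j ∈ range e, (α j + β j) ∨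
      (2 * e + 4 ≤ k ∧ s + e ≤ d + k ∧ 2 * e ≤ ∑ j ∈ range e, (α j + β j)) := by
  rcases le_or_gt d (k + 1) with hk | hk
  · left
    rcases Nat.eq_zero_or_pos e with he | he
    · subst he
      unfold Alive at hCe
      simp only [range_zero, sum_empty, zero_add, mul_zero, add_zero] at hCe ⊢
      exact gen_big hd hk (hs' hk) hp hsp ht hCe
    · have h0 := hC 0 he
      unfold Alive at h0
      simp only [range_zero, sum_empty, zero_add, mul_zero, add_zero] at h0
      have h1 := gen_big hd hk (hs' hk) hp hsp ht h0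
      have h2 : α 0 + β 0 + (e - 1) ≤ ∑ j ∈ range e, (α j + β j) := by
        obtain ⟨n, rfl⟩ : ∃ n, e = n + 1 := ⟨e - 1, by omega⟩
        rw [sum_range_succ' (fun j => α j + β j)]
        have h3 : n ≤ ∑ j ∈ range n, (α (j + 1) + β (j + 1)) := by
          calc n = ∑ j ∈ range n, 1 := by simp
            _ ≤ _ := sum_le_sum fun j hj => by
              have := hlast (j + 1) (by have := mem_range.1 hj; omega)
              omega
        omega
      omega
  · by_contra hcon
    push Not at hcon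
    obtain ⟨h1, h2⟩ := hcon
    rcases Nat.lt_or_ge 1 r with hr2 | hr1
    · have hL : 2 * e ≤ ∑ j ∈ range e, (α j + β j) := by
        calc 2 * e = ∑ j ∈ range e, 2 := by simp [mul_comm]
          _ ≤ _ := sum_le_sum fun j hj => by
            have := hlast j (mem_range.1 hj)
            omega
      have h3 : s * d + i * (d - 1) + 2 * d + k + (r + 1) * e
          ≤ (d - 1) * ∑ j ∈ range e, (α j + β j) + s + e + (r + 1) * t := by
        obtain ⟨D, rfl⟩ : ∃ D, d = D + 1 := ⟨d - 1, by omega⟩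
        unfold Alive at hCe
        simp only [Nat.add_sub_cancel] at hCe ⊢
        have := out_le (D := D) (β := β) hα
        omega
      obtain ⟨h4, h5⟩ := gen_small hd (by omega) hs hp hsp ht hL h3 (by omega)
      have := h2 h4 h5
      omega
    · -- a row of length one
      have hr' : r = 1 := le_antisymm hr1 hr
      subst hr'
      have hsum : ∑ j ∈ range e, (α j + β j) = ∑ j ∈ range e, α j + ∑ j ∈ range e, β j :=
        sum_add_distrib
      -- choose a letter which is left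
      obtain ⟨a, b, hab, ha, hb⟩ : ∃ a b : ℕ, a + b = 1 ∧ ∑ j ∈ range e, α j + a ≤ s ∧
          ∑ j ∈ range e, β j + b ≤ i := by
        rcases Nat.lt_or_ge (∑ j ∈ range e, α j) s with h | h
        · exact ⟨1, 0, rfl, h, by omega⟩
        · exact ⟨0, 1, rfl, by omega, by omega⟩
      have e1 : ∀ n ≤ e, ∑ j ∈ range n, Function.update α e a j = ∑ j ∈ range n, α j := by
        intro n hn
        refine sum_congr rfl fun j hj => ?_
        rw [Function.update_of_ne (by have := mem_range.1 hj; omega)]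
      have e2 : ∀ n ≤ e, ∑ j ∈ range n, Function.update β e b j = ∑ j ∈ range n, β j := by
        intro n hn
        refine sum_congr rfl fun j hj => ?_
        rw [Function.update_of_ne (by have := mem_range.1 hj; omega)]
      have e3 : ∀ j < e, Function.update α e a j = α j := fun j hj =>
        Function.update_of_ne (by omega) _ _
      have e4 : ∀ j < e, Function.update β e b j = β j := fun j hj =>
        Function.update_of_ne (by omega) _ _
      have e5 : Function.update α e a e = a := Function.update_self _ _ _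
      have e6 : Function.update β e b e = b := Function.update_self _ _ _
      refine numbers_gen (R := e + 1) (α := Function.update α e a) (β := Function.update β e b)
        hd hs hp hsp ht ?_ ?_ ?_ ?_ ?_ ?_ ?_
      · rw [sum_range_succ, e1 e le_rfl, e5]
        exact ha
      · rw [sum_range_succ, e2 e le_rfl, e6]
        exact hb
      · rw [sum_add_distrib, sum_range_succ, sum_range_succ, e1 e le_rfl, e2 e le_rfl, e5, e6]
        omega
      · left
        rw [Nat.add_sub_cancel, e5, e6]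
        omega
      · intro j hj
        rcases Nat.lt_or_ge j e with h | h
        · rw [e3 j h, e4 j h]
          exact hlast j h
        · have : j = e := by omega
          subst this
          rw [e5, e6]
          omega
      · intro j hj
        rcases Nat.lt_or_ge (j + 1) e with h | h
        · rw [e3 j (by omega), e4 j (by omega), e3 _ h, e4 _ h]
          exact hanti j h
        · have : j + 1 = e := by omega
          rw [e3 j (by omega), e4 j (by omega), this, e5, e6]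
          have := hlast j (by omega)
          omega
      · intro j hj
        rcases Nat.lt_or_ge j e with h | h
        · have h3 := hC j h
          unfold Alive at h3
          rw [e3 j h, e4 j h]
          refine h3.trans (le_of_eq ?_)
          congr 1
          refine sum_congr rfl fun n hn => ?_
          rw [e3 n (by have := mem_range.1 hn; omega), e4 n (by have := mem_range.1 hn; omega)]
        · have : j = e := by omega
          subst this
          unfold Alive at hCe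
          rw [e5, e6, hab]
          refine hCe.trans (le_of_eq ?_)
          congr 1
          refine sum_congr rfl fun n hn => ?_
          rw [e3 n (mem_range.1 hn), e4 n (mem_range.1 hn)]

end Pool.Agent.H85.OPN
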